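import Pool.Agent.X53.Blk

/-!
# MP_e1005d_co: tangential blocks with a modular copoint

There is a tangential `1`-block over `GF(7)`, of rank four and with nineteen points, that has a
modular copoint but no modular line; in particular it is not supersolvable.
-/

namespace Pool.Agent.Results.MP_e1005d_co.NineteenPoints

open Pool.Agent.Helper236 Pool.Agent.X53.Blk Set

/-- `M` is a tangential `k`-block over the finite field `F`: a finite simple matroid, representable
over `F`, with critical exponent larger than `k`, such that every proper minor of `M` (without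
loops) has critical exponent at most `k`. -/
def IsTangentialBlock (F : Type) [Field F] (k : ℕ) {α : Type} (M : Matroid α) : Prop :=
  M.Finite ∧ IsSimple M ∧ Representable F M ∧ (k : ℕ∞) < critExp M (Nat.card F) ∧
    ∀ N : Matroid α, N.IsMinor M → N ≠ M → (∀ e ∈ N.E, N.IsNonloop e) →
      critExp N (Nat.card F) ≤ k

/-- `M` is supersolvable: there is a chain `G 0 ⊆ G 1 ⊆ ... ⊆ G r` of modular flats with
`r (G i) = i`, where `r` is the rank of `M`. -/
def IsSupersolvable {α : Type} (M : Matroid α) : Prop :=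
  ∃ G : ℕ → Set α, (∀ i ≤ rk M M.E, IsModularFlat M (G i) ∧ rk M (G i) = i) ∧
    ∀ i < rk M M.E, G i ⊆ G (i + 1)

/-- The entries of the nineteen vectors. -/
def vec : ℕ → ℕ → ℕ := dec 4535165070578058495529217347061028822702978622037237117792117043 4

def wU : List (ℕ × ℕ × ℕ × ℕ) := [(0, 0, 1, 0), (7, 7, 1, 0), (11, 7, 1, 6), (8, 7, 4, 3)]

def w1 : List ℕ :=
  [7, 43, 547, 15, 1499, 750, 8, 442, 806, 1772, 1429, 302, 155, 1583, 400, 498, 253, 701, 169]

def w2 : List ℕ :=
  [735, 252, 1379, 1085, 693, 301, 1771, 742, 791, 497, 350, 2065, 92, 925, 1072, 533, 141, 1611,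
   631, 1758, 1905, 2101, 386, 113, 890, 1576, 869, 1324, 2171, 1142, 2262, 799, 204, 2157, 162,
   309, 1086, 260, 1688, 1492, 470, 64, 988, 694, 463, 743, 792, 939, 1401, 1730, 351, 1471, 855,
   1870, 2164, 1149, 57, 736, 2367, 1338, 1380, 995, 2066, 99, 344, 1814, 785, 1128, 2318, 2073,
   1002, 2220, 2122, 2017, 1968, 1821, 1093, 2087, 1674, 1478, 1625, 449, 106, 2115, 2178]

def pl : List (ℕ × ℕ × ℕ × ℕ) :=
  [(981, 2, 7, 17), (1722, 0, 9, 15), (1135, 3, 8, 13), (2114, 0, 15, 17)]

theorem c1 : chkSimple 19 4 vec = true := by decide +kernel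

theorem c2 : chkDiff 19 4 vec = true := by decide +kernel

theorem c3 : chkUnit 19 4 vec wU = true := by decide +kernel

theorem c4 : chkSingle 19 4 vec w1 = true := by decide +kernel

theorem c5 : chkLine 19 4 vec w2 = true := by decide +kernel

theorem c6 : chkPlane 19 4 vec pl = true := by decide +kernel

theorem c7 : chkDisj 19 4 vec w2 pl = true := by decide +kernel

theorem card7 : Nat.card (ZMod 7) = 7 := by simp

/-- **MP_e1005d_co, disproof.** There is a tangential `1`-block over `GF(7)` with a modular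
copoint which is not supersolvable; it has rank four, nineteen points and no modular line. -/
theorem result : ∃ M : Matroid (Fin 19), IsTangentialBlock (ZMod 7) 1 M ∧
    (∃ X, IsModularHyperplane M X) ∧ ¬ IsSupersolvable M ∧
    M.E = Set.univ ∧ rk M M.E = 4 ∧ ∀ L, IsModularFlat M L → rk M L ≠ 2 := by
  have hrep := mat_rep 19 4 vec
  have hsim := isSimple_of_chk c1
  have hrk : rk (mat 19 4 vec) (mat 19 4 vec).E = 4 := rk_ground_of_chk c3
  have hline : ∀ L, IsModularFlat (mat 19 4 vec) L → rk (mat 19 4 vec) L ≠ 2 :=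
    fun L hL => not_modular_line c1 c5 c6 c7 L hL
  refine ⟨mat 19 4 vec, ⟨inferInstance, hsim, ⟨4, vv vec, hrep⟩, ?_, ?_⟩,
    ⟨_, isModularHyperplane_of_chk c1 c2 c3 (by norm_num) (by norm_num)⟩, ?_, rfl, hrk, hline⟩
  · rw [card7]
    exact lt_critExp_of_chk c2 (by norm_num)
  · intro N hN hne hl
    refine minor_le hrep hsim ?_ hN hne hl
    intro G hG hGne
    obtain ⟨f, hf1, hf2⟩ := flat_functional c1 c3 c4 c5 G hG hGne
    refine ⟨LinearMap.pi fun _ => f, ?_, ?_⟩
    · intro x hx
      ext i
      simpa using hf1 x hx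
    · intro x _ hx h0
      apply hf2 x hx
      have := congrFun h0 0
      simpa using this
  · rintro ⟨G, hG, -⟩
    rw [hrk] at hG
    obtain ⟨h1, h2⟩ := hG 2 (by norm_num)
    exact hline _ h1 h2

end Pool.Agent.Results.MP_e1005d_co.NineteenPoints
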